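import Pool.Agent.V5helper51.MW.Stm
import Pool.Agent.V5helper43.CR.HB

/-! # Project MW: decomposition of the Möbius and von Mangoldt functions (job DEC) -/

set_option autoImplicit false

namespace Pool.Agent.V5helper59.MW

open Finset
open Pool.Agent.V5helper43.CR (evn evn_apply muz muz_apply cZ cZ_apply cLog cMu cLam hb_gen cLam_mul cMu_mul)
open Pool.Agent.V5helper51.MW

/-- `f` cut at `y` -/
noncomputable def ct (y : ℕ) (f : ArithmeticFunction ℂ) : ArithmeticFunction ℂ :=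
  ⟨fun n => if n ≤ y then f n else 0, by simp⟩

lemma ct_apply (y : ℕ) (f : ArithmeticFunction ℂ) (n : ℕ) : ct y f n = if n ≤ y then f n else 0 := rfl

/-- bounded by `B τ^r` on `[1, N]` -/
def Bd (N : ℕ) (B : ℝ) (r : ℕ) (f : ArithmeticFunction ℂ) : Prop :=
  ∀ n, 1 ≤ n → n ≤ N → ‖f n‖ ≤ B * (n.divisors.card : ℝ) ^ r

lemma card_div_mono {a n : ℕ} (hn : n ≠ 0) (h : a ∣ n) : (a.divisors.card : ℝ) ≤ n.divisors.card := by
  exact_mod_cast card_le_card (Nat.divisors_subset_of_dvd hn h)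

lemma one_le_tau {n : ℕ} (hn : 1 ≤ n) : (1 : ℝ) ≤ n.divisors.card := by
  exact_mod_cast Finset.card_pos.mpr ⟨1, by rw [Nat.mem_divisors]; exact ⟨one_dvd _, by omega⟩⟩

lemma Bd.ct {N : ℕ} {B : ℝ} {r : ℕ} {f : ArithmeticFunction ℂ} (h : Bd N B r f) (hB : 0 ≤ B) (y : ℕ) :
    Bd N B r (ct y f) := by
  intro n h1 h2
  rw [ct_apply]
  split_ifs
  · exact h n h1 h2
  · rw [norm_zero]
    positivity

lemma Bd.mul {N : ℕ} {B B' : ℝ} {r s : ℕ} {f g : ArithmeticFunction ℂ} (hf : Bd N B r f)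
    (hg : Bd N B' s g) (hB : 0 ≤ B) (hB' : 0 ≤ B') : Bd N (B * B') (r + s + 1) (f * g) := by
  intro n h1 h2
  have hn : n ≠ 0 := by omega
  rw [ArithmeticFunction.mul_apply]
  refine (norm_sum_le _ _).trans ?_
  refine (sum_le_sum (g := fun _ => B * B' * (n.divisors.card : ℝ) ^ (r + s)) fun x hx => ?_).trans ?_
  · rw [Nat.mem_divisorsAntidiagonal] at hx
    have hd1 : x.1 ∣ n := ⟨x.2, hx.1.symm⟩
    have hd2 : x.2 ∣ n := ⟨x.1, by rw [mul_comm]; exact hx.1.symm⟩
    have p1 : 1 ≤ x.1 := Nat.pos_of_dvd_of_pos hd1 h1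
    have p2 : 1 ≤ x.2 := Nat.pos_of_dvd_of_pos hd2 h1
    have q1 := hf x.1 p1 ((Nat.le_of_dvd h1 hd1).trans h2)
    have q2 := hg x.2 p2 ((Nat.le_of_dvd h1 hd2).trans h2)
    have r1 := card_div_mono hn hd1
    have r2 := card_div_mono hn hd2
    rw [norm_mul]
    calc ‖f x.1‖ * ‖g x.2‖ ≤ (B * (x.1.divisors.card : ℝ) ^ r) * (B' * (x.2.divisors.card : ℝ) ^ s) := by
          gcongr
      _ ≤ (B * (n.divisors.card : ℝ) ^ r) * (B' * (n.divisors.card : ℝ) ^ s) := by gcongr
      _ = B * B' * (n.divisors.card : ℝ) ^ (r + s) := by ring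
  · rw [sum_const, nsmul_eq_mul]
    have : (n.divisorsAntidiagonal.card : ℝ) = n.divisors.card := by
      rw [← Nat.map_div_right_divisors, card_map]
    rw [this]
    apply le_of_eq
    ring

lemma Bd.mono {N : ℕ} {B B' : ℝ} {r s : ℕ} {f : ArithmeticFunction ℂ} (hf : Bd N B r f)
    (hB : B ≤ B') (hB0 : 0 ≤ B') (hrs : r ≤ s) : Bd N B' s f := by
  intro n h1 h2
  refine (hf n h1 h2).trans ?_
  have := one_le_tau h1
  gcongr

lemma Bd.add {N : ℕ} {B B' : ℝ} {r : ℕ} {f g : ArithmeticFunction ℂ} (hf : Bd N B r f)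
    (hg : Bd N B' r g) : Bd N (B + B') r (f + g) := by
  intro n h1 h2
  rw [ArithmeticFunction.add_apply]
  refine (norm_add_le _ _).trans ?_
  rw [add_mul]
  exact add_le_add (hf n h1 h2) (hg n h1 h2)

lemma Bd.neg {N : ℕ} {B : ℝ} {r : ℕ} {f : ArithmeticFunction ℂ} (hf : Bd N B r f) : Bd N B r (-f) := by
  intro n h1 h2
  have : (-f) n = -(f n) := by
    rw [← evn_apply, map_neg, evn_apply]
  rw [this, norm_neg]
  exact hf n h1 h2

lemma Bd.three {N : ℕ} {B : ℝ} {r : ℕ} {f : ArithmeticFunction ℂ} (hf : Bd N B r f) :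
    Bd N (3 * B) r (3 * f) := by
  have h : (3 : ArithmeticFunction ℂ) * f = f + f + f := by ring
  rw [h]
  have := (hf.add hf).add hf
  have e : B + B + B = 3 * B := by ring
  rwa [e] at this

/-- supported on `[1, y]` -/
def Sp (y : ℕ) (f : ArithmeticFunction ℂ) : Prop := ∀ n, y < n → f n = 0

lemma Sp.mul {y y' : ℕ} {f g : ArithmeticFunction ℂ} (hf : Sp y f) (hg : Sp y' g) : Sp (y * y') (f * g) := by
  intro n hn
  rw [ArithmeticFunction.mul_apply]
  apply sum_eq_zero
  intro x hx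
  rw [Nat.mem_divisorsAntidiagonal] at hx
  by_cases h : y < x.1
  · rw [hf _ h, zero_mul]
  · rw [hg x.2 ?_, mul_zero]
    by_contra h'
    push Not at h h'
    have := Nat.mul_le_mul h h'
    rw [hx.1] at this
    omega

lemma Sp.mono {y y' : ℕ} {f : ArithmeticFunction ℂ} (hf : Sp y f) (h : y ≤ y') : Sp y' f :=
  fun n hn => hf n (by omega)

lemma Sp_ct (y : ℕ) (f : ArithmeticFunction ℂ) : Sp y (ct y f) := by
  intro n hn
  rw [ct_apply, if_neg (by omega)]

lemma Sp.add {y : ℕ} {f g : ArithmeticFunction ℂ} (hf : Sp y f) (hg : Sp y g) : Sp y (f + g) := by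
  intro n hn
  rw [ArithmeticFunction.add_apply, hf n hn, hg n hn, add_zero]

lemma Sp.neg {y : ℕ} {f : ArithmeticFunction ℂ} (hf : Sp y f) : Sp y (-f) := by
  intro n hn
  rw [← evn_apply, map_neg, evn_apply, hf n hn, neg_zero]

lemma Sp.three {y : ℕ} {f : ArithmeticFunction ℂ} (hf : Sp y f) : Sp y (3 * f) := by
  have h : (3 : ArithmeticFunction ℂ) * f = f + f + f := by ring
  rw [h]
  exact (hf.add hf).add hf

/-- functions on `[1, N]` -/
noncomputable def cn (N : ℕ) (f : ArithmeticFunction ℂ) (n : ℕ) : ℂ := if n ≤ N then f n else 0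

lemma cv_eq {N n : ℕ} (h1 : 1 ≤ n) (h2 : n ≤ N) (f g : ArithmeticFunction ℂ) (α β : ℕ → ℂ)
    (hα : ∀ d, 1 ≤ d → d ≤ N → α d = f d) (hβ : ∀ d, 1 ≤ d → d ≤ N → β d = g d) : cv α β n = (f * g) n := by
  unfold cv
  rw [ArithmeticFunction.mul_apply, Nat.sum_divisorsAntidiagonal (fun x y => f x * g y)]
  refine sum_congr rfl fun d hd => ?_
  rw [Nat.mem_divisors] at hd
  have p1 : 1 ≤ d := Nat.pos_of_dvd_of_pos hd.1 h1
  have p2 : 1 ≤ n / d := Nat.div_pos (Nat.le_of_dvd h1 hd.1) p1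
  rw [hα d p1 ((Nat.le_of_dvd h1 hd.1).trans h2), hβ _ p2 ((Nat.div_le_self n d).trans h2)]

lemma cn_norm {N : ℕ} {B : ℝ} {f : ArithmeticFunction ℂ} {r : ℕ} (h : Bd N B r f) (hr : r ≤ 5) (hB : 0 ≤ B)
    {C : ℝ} (hC : B ≤ 20 * C) (n : ℕ) : ‖cn N f n‖ ≤ 20 * (n.divisors.card : ℝ) ^ 5 * C := by
  unfold cn
  have hC0 : 0 ≤ C := by linarith
  split_ifs with h1
  · rcases Nat.eq_zero_or_pos n with rfl | hn
    · simp
    · refine (h n hn h1).trans ?_
      have h2 := one_le_tau hn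
      have h3 : (n.divisors.card : ℝ) ^ r ≤ (n.divisors.card : ℝ) ^ 5 := pow_le_pow_right₀ h2 hr
      calc B * (n.divisors.card : ℝ) ^ r ≤ (20 * C) * (n.divisors.card : ℝ) ^ 5 := by gcongr
        _ = _ := by ring
  · rw [norm_zero]
    positivity

/-- the decomposition for a function `f` with `f * ζ = L` -/
theorem dec_gen (f L : ArithmeticFunction ℂ) (hfL : f * cZ = L) (N z P : ℕ) (_hN : 2 ≤ N) (hNz : N ≤ z ^ 3)
    (hP : 1 ≤ P) (hPz : P ≤ z) (hL : ∀ n, 1 ≤ n → n ≤ N → ‖L n‖ ≤ 1 + Real.log N) (b : Bool)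
    (hb1 : b = true → L = cLog) (hb2 : b = false → ∀ n, z < n → L n = 0) :
    Nonempty (Dec (fun n => f n) N z P) := by
  obtain ⟨C, hC⟩ : ∃ C, C = 1 + Real.log (N : ℝ) := ⟨_, rfl⟩
  have hC1 : 1 ≤ C := by
    have : 0 ≤ Real.log (N : ℝ) := Real.log_natCast_nonneg N
    linarith
  have hC0 : 0 ≤ C := by linarith
  obtain ⟨A, hA⟩ : ∃ A, A = muz z := ⟨_, rfl⟩
  obtain ⟨Z, hZ⟩ : ∃ Z, Z = cZ := ⟨_, rfl⟩
  obtain ⟨Ap, hAp⟩ : ∃ Ap, Ap = ct P A := ⟨_, rfl⟩
  obtain ⟨Zz, hZz⟩ : ∃ Zz, Zz = ct z Z := ⟨_, rfl⟩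
  obtain ⟨Zp, hZp⟩ : ∃ Zp, Zp = ct P Z := ⟨_, rfl⟩
  obtain ⟨Lz, hLz⟩ : ∃ Lz, Lz = ct z L := ⟨_, rfl⟩
  obtain ⟨Lp, hLp⟩ : ∃ Lp, Lp = ct P L := ⟨_, rfl⟩
  -- bounds
  have bA : Bd N 1 0 A := by
    intro n _ _
    rw [hA, muz_apply, pow_zero, mul_one]
    split_ifs
    · rw [Complex.norm_intCast]
      exact_mod_cast ArithmeticFunction.abs_moebius_le_one
    · simp
  have bZ : Bd N 1 0 Z := by
    intro n h1 _
    rw [hZ, cZ_apply n h1]
    simp
  have bL : Bd N C 0 L := by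
    intro n h1 h2
    rw [pow_zero, mul_one, hC]
    exact hL n h1 h2
  have bAp : Bd N 1 0 Ap := by rw [hAp]; exact bA.ct zero_le_one _
  have bZz : Bd N 1 0 Zz := by rw [hZz]; exact bZ.ct zero_le_one _
  have bZp : Bd N 1 0 Zp := by rw [hZp]; exact bZ.ct zero_le_one _
  have bLz : Bd N C 0 Lz := by rw [hLz]; exact bL.ct hC0 _
  -- the five functions
  obtain ⟨a0, ha0⟩ : ∃ a0, a0 = 3 * A + -(3 * (A * A * Z)) + A * A * A * Z * Z := ⟨_, rfl⟩
  obtain ⟨a1, ha1⟩ : ∃ a1, a1 = -(3 * (A * A * Lz)) + (A * A * A * Lz * Z + A * A * A * Lz * Zz) := ⟨_, rfl⟩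
  obtain ⟨b0, hb0⟩ : ∃ b0, b0 = 3 * Lz + -(3 * (A * Zz * Lz + Ap * Zz * Lz)) +
    (A * A * Zz * Zz * Lz + A * Ap * Zz * Zz * Lz + Ap * Ap * Zz * Zz * Lz) := ⟨_, rfl⟩
  obtain ⟨c1, hc1⟩ : ∃ c1, c1 = -(3 * (Ap * Ap * Lz)) + (Ap * Ap * Ap * Lz * Zz + Ap * Ap * Ap * Lz * Zp) := ⟨_, rfl⟩
  obtain ⟨c2, hc2⟩ : ∃ c2, c2 = 3 * Ap + -(3 * (Ap * Ap * Zp)) + Ap * Ap * Ap * Zp * Zp := ⟨_, rfl⟩
  have key : ∀ n, n ≤ z ^ 3 → f n = (a0 * (L - Lz) + a1 * (Z - Zz) + (A - Ap) * b0 + (Zz - Zp) * c1 +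
      (Lz - Lp) * c2 + (3 * (Ap * Lp) + -(3 * (Ap * Ap * Zp * Lp)) + Ap * Ap * Ap * Zp * Zp * Lp)) n := by
    intro n hn
    have h1 := hb_gen f L hfL 3 z n (by norm_num) hn
    rw [sum_range_succ, sum_range_succ, sum_range_succ, sum_range_zero] at h1
    have c1' : ((3 : ℕ).choose (0 + 1) : ℂ) = 3 := by norm_num [Nat.choose]
    have c2' : ((3 : ℕ).choose (1 + 1) : ℂ) = 3 := by norm_num [Nat.choose]
    have c3' : ((3 : ℕ).choose (2 + 1) : ℂ) = 1 := by norm_num [Nat.choose]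
    rw [c1', c2', c3', ← hA, ← hZ] at h1
    have h2 : f n = (3 * (L * Z ^ 0 * A ^ (0 + 1)) + -(3 * (L * Z ^ 1 * A ^ (1 + 1))) +
        L * Z ^ 2 * A ^ (2 + 1) : ArithmeticFunction ℂ) n := by
      rw [h1]
      have e3 : ∀ g : ArithmeticFunction ℂ, (3 * g) n = 3 * g n := by
        intro g
        have h : (3 : ArithmeticFunction ℂ) * g = g + g + g := by ring
        rw [h, ArithmeticFunction.add_apply, ArithmeticFunction.add_apply]
        ring
      have en : ∀ g : ArithmeticFunction ℂ, (-g) n = -(g n) := by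
        intro g
        rw [← evn_apply, map_neg, evn_apply]
      rw [ArithmeticFunction.add_apply, ArithmeticFunction.add_apply, en, e3, e3]
      ring
    rw [h2]
    congr 1
    rw [ha0, ha1, hb0, hc1, hc2]
    ring
  have bmul := fun {B B' : ℝ} {r s : ℕ} {f g : ArithmeticFunction ℂ} (hf : Bd N B r f) (hg : Bd N B' s g)
    (hB : 0 ≤ B) (hB' : 0 ≤ B') => Bd.mul hf hg hB hB'
  have z1 : (0 : ℝ) ≤ 1 := zero_le_one
  have Ba0 : Bd N (20 * C) 5 a0 := by
    have t1 := bA.three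
    have t2 := (((bA.mul bA z1 z1).mul bZ (by norm_num) z1).three).neg
    have t3 := (((bA.mul bA z1 z1).mul bA (by norm_num) z1).mul bZ (by norm_num) z1).mul bZ (by norm_num) z1
    rw [ha0]
    refine (((t1.mono (B' := 3) (s := 5) (by norm_num) (by norm_num) (by norm_num)).add
      (t2.mono (B' := 3) (s := 5) (by norm_num) (by norm_num) (by norm_num))).add
      (t3.mono (B' := 1) (s := 5) (by norm_num) (by norm_num) (by norm_num))).mono ?_ ?_ le_rfl <;> linarith
  have Ba1 : Bd N (20 * C) 5 a1 := by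
    have t2 := (((bA.mul bA z1 z1).mul bLz (by norm_num) hC0).three).neg
    have t3 := (((bA.mul bA z1 z1).mul bA (by norm_num) z1).mul bLz (by norm_num) hC0).mul bZ (by linarith) z1
    have t4 := (((bA.mul bA z1 z1).mul bA (by norm_num) z1).mul bLz (by norm_num) hC0).mul bZz (by linarith) z1
    rw [ha1]
    refine ((t2.mono (B' := 3 * C) (s := 5) (by linarith) (by linarith) (by norm_num)).add
      ((t3.mono (B' := C) (s := 5) (by linarith) (by linarith) (by norm_num)).add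
      (t4.mono (B' := C) (s := 5) (by linarith) (by linarith) (by norm_num)))).mono ?_ ?_ le_rfl <;> linarith
  have Bb0 : Bd N (20 * C) 5 b0 := by
    have t1 := bLz.three
    have t2 := (bA.mul bZz z1 z1).mul bLz (by norm_num) hC0
    have t3 := (bAp.mul bZz z1 z1).mul bLz (by norm_num) hC0
    have t4 := (((bA.mul bA z1 z1).mul bZz (by norm_num) z1).mul bZz (by norm_num) z1).mul bLz (by norm_num) hC0
    have t5 := (((bA.mul bAp z1 z1).mul bZz (by norm_num) z1).mul bZz (by norm_num) z1).mul bLz (by norm_num) hC0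
    have t6 := (((bAp.mul bAp z1 z1).mul bZz (by norm_num) z1).mul bZz (by norm_num) z1).mul bLz (by norm_num) hC0
    rw [hb0]
    refine (((t1.mono (B' := 3 * C) (s := 5) (by linarith) (by linarith) (by norm_num)).add
      (((t2.mono (B' := C) (s := 5) (by linarith) (by linarith) (by norm_num)).add
       (t3.mono (B' := C) (s := 5) (by linarith) (by linarith) (by norm_num))).three.neg)).add
      (((t4.mono (B' := C) (s := 5) (by linarith) (by linarith) (by norm_num)).add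
       (t5.mono (B' := C) (s := 5) (by linarith) (by linarith) (by norm_num))).add
       (t6.mono (B' := C) (s := 5) (by linarith) (by linarith) (by norm_num)))).mono ?_ ?_ le_rfl <;> linarith
  have Bc1 : Bd N (20 * C) 5 c1 := by
    have t2 := (((bAp.mul bAp z1 z1).mul bLz (by norm_num) hC0).three).neg
    have t3 := (((bAp.mul bAp z1 z1).mul bAp (by norm_num) z1).mul bLz (by norm_num) hC0).mul bZz (by linarith) z1
    have t4 := (((bAp.mul bAp z1 z1).mul bAp (by norm_num) z1).mul bLz (by norm_num) hC0).mul bZp (by linarith) z1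
    rw [hc1]
    refine ((t2.mono (B' := 3 * C) (s := 5) (by linarith) (by linarith) (by norm_num)).add
      ((t3.mono (B' := C) (s := 5) (by linarith) (by linarith) (by norm_num)).add
      (t4.mono (B' := C) (s := 5) (by linarith) (by linarith) (by norm_num)))).mono ?_ ?_ le_rfl <;> linarith
  have Bc2 : Bd N (20 * C) 5 c2 := by
    have t1 := bAp.three
    have t2 := (((bAp.mul bAp z1 z1).mul bZp (by norm_num) z1).three).neg
    have t3 := (((bAp.mul bAp z1 z1).mul bAp (by norm_num) z1).mul bZp (by norm_num) z1).mul bZp (by norm_num) z1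
    rw [hc2]
    refine (((t1.mono (B' := 3) (s := 5) (by norm_num) (by norm_num) (by norm_num)).add
      (t2.mono (B' := 3) (s := 5) (by norm_num) (by norm_num) (by norm_num))).add
      (t3.mono (B' := 1) (s := 5) (by norm_num) (by norm_num) (by norm_num))).mono ?_ ?_ le_rfl <;> linarith
  -- the values of the differences
  have sub_ap : ∀ (g h : ArithmeticFunction ℂ) (n : ℕ), (g - h) n = g n - h n := by
    intro g h n
    rw [← evn_apply, map_sub, evn_apply, evn_apply]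
  have vA : ∀ n, (A - Ap) n = if P < n ∧ n ≤ z then A n else 0 := by
    intro n
    have hA0 : z < n → A n = 0 := fun h => by rw [hA, muz_apply, if_neg (by omega)]
    rw [sub_ap, hAp, ct_apply]
    by_cases h1 : n ≤ P
    · rw [if_pos h1, if_neg (by omega), sub_self]
    · rw [if_neg h1, sub_zero]
      by_cases h2 : n ≤ z
      · rw [if_pos (by omega)]
      · rw [if_neg (by omega), hA0 (by omega)]
  have vct : ∀ (g : ArithmeticFunction ℂ) (n : ℕ), (ct z g - ct P g) n = if P < n ∧ n ≤ z then g n else 0 := by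
    intro g n
    rw [sub_ap, ct_apply, ct_apply]
    by_cases h1 : n ≤ P
    · rw [if_pos h1, if_pos (by omega), if_neg (by omega), sub_self]
    · rw [if_neg h1, sub_zero]
      by_cases h2 : n ≤ z
      · rw [if_pos h2, if_pos (by omega)]
      · rw [if_neg h2, if_neg (by omega)]
  have vco : ∀ (g : ArithmeticFunction ℂ) (n : ℕ), (g - ct z g) n = if z < n then g n else 0 := by
    intro g n
    rw [sub_ap, ct_apply]
    by_cases h1 : n ≤ z
    · rw [if_pos h1, if_neg (by omega), sub_self]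
    · rw [if_neg h1, if_pos (by omega), sub_zero]
  have hzero : ∀ n, P ^ 6 < n →
      (3 * (Ap * Lp) + -(3 * (Ap * Ap * Zp * Lp)) + Ap * Ap * Ap * Zp * Zp * Lp) n = 0 := by
    have sA : Sp P Ap := by rw [hAp]; exact Sp_ct _ _
    have sZ : Sp P Zp := by rw [hZp]; exact Sp_ct _ _
    have sL : Sp P Lp := by rw [hLp]; exact Sp_ct _ _
    have s1 : Sp (P ^ 6) (3 * (Ap * Lp)) := by
      refine (Sp.mono (sA.mul sL) ?_).three
      calc P * P = P ^ 2 := by ring
        _ ≤ P ^ 6 := Nat.pow_le_pow_right hP (by norm_num)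
    have s2 : Sp (P ^ 6) (-(3 * (Ap * Ap * Zp * Lp))) := by
      refine ((Sp.mono (((sA.mul sA).mul sZ).mul sL) ?_).three).neg
      calc P * P * P * P = P ^ 4 := by ring
        _ ≤ P ^ 6 := Nat.pow_le_pow_right hP (by norm_num)
    have s3 : Sp (P ^ 6) (Ap * Ap * Ap * Zp * Zp * Lp) := by
      refine Sp.mono (((((sA.mul sA).mul sA).mul sZ).mul sZ).mul sL) ?_
      exact le_of_eq (by ring)
    exact (s1.add s2).add s3
  -- the structure
  let aa : Fin 3 → ℕ → ℂ := ![if b then cn N a0 else 0, cn N a1, 0]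
  let ll : Fin 3 → Bool := ![true, false, false]
  let al : Fin 3 → ℕ → ℂ := ![cn N (A - Ap), cn N (Zz - Zp), cn N (Lz - Lp)]
  let be : Fin 3 → ℕ → ℂ := ![cn N b0, cn N c1, cn N c2]
  have hcz : ∀ n : ℕ, ‖(0 : ℕ → ℂ) n‖ ≤ 20 * (n.divisors.card : ℝ) ^ 5 * C := by
    intro n
    rw [Pi.zero_apply, norm_zero]
    positivity
  have hC20 : 20 * C ≤ 20 * C := le_rfl
  refine ⟨⟨3, by norm_num, aa, ll, al, be, ?_, ?_, ?_, ?_, ?_⟩⟩
  · intro i d
    rw [← hC]
    fin_cases i
    · change ‖(if b then cn N a0 else 0 : ℕ → ℂ) d‖ ≤ _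
      cases b
      · exact hcz d
      · exact cn_norm Ba0 le_rfl (by linarith) le_rfl d
    · exact cn_norm Ba1 le_rfl (by linarith) le_rfl d
    · exact hcz d
  · intro i m hm
    have gen : ∀ g : ArithmeticFunction ℂ, cn N g m ≠ 0 → g m ≠ 0 := by
      intro g h1 h2
      apply h1
      unfold cn
      rw [h2]
      simp
    by_contra hcon
    fin_cases i
    · exact gen (A - Ap) hm (by rw [vA, if_neg hcon])
    · exact gen (Zz - Zp) hm (by rw [hZz, hZp, vct, if_neg hcon])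
    · exact gen (Lz - Lp) hm (by rw [hLz, hLp, vct, if_neg hcon])
  · intro i m
    rw [← hC]
    have gen : ∀ (g h : ArithmeticFunction ℂ), (∀ n, 1 ≤ n → n ≤ N → ‖g n‖ ≤ C) →
        (∀ n, h n = if P < n ∧ n ≤ z then g n else 0) → ‖cn N h m‖ ≤ C := by
      intro g h hg hh
      unfold cn
      rw [hh]
      split_ifs with h1 h2
      · exact hg m (by omega) h1
      · rw [norm_zero]; exact hC0
      · rw [norm_zero]; exact hC0
    fin_cases i
    · refine gen A (A - Ap) (fun n h1 h2 => ?_) vA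
      have := bA n h1 h2
      rw [pow_zero, mul_one] at this
      linarith
    · refine gen Z (Zz - Zp) (fun n h1 h2 => ?_) (fun n => by rw [hZz, hZp, vct])
      have := bZ n h1 h2
      rw [pow_zero, mul_one] at this
      linarith
    · refine gen L (Lz - Lp) (fun n h1 h2 => ?_) (fun n => by rw [hLz, hLp, vct])
      have := bL n h1 h2
      rwa [pow_zero, mul_one] at this
  · intro i d
    rw [← hC]
    fin_cases i
    · exact cn_norm Bb0 le_rfl (by linarith) le_rfl d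
    · exact cn_norm Bc1 le_rfl (by linarith) le_rfl d
    · exact cn_norm Bc2 le_rfl (by linarith) le_rfl d
  · intro n hn hnN
    have hn1 : 1 ≤ n := by omega
    have hcn : ∀ g : ArithmeticFunction ℂ, ∀ d, 1 ≤ d → d ≤ N → cn N g d = g d := by
      intro g d _ hd
      unfold cn
      rw [if_pos hd]
    have e0 : cv (aa 0) (fun n => if z < n then (if ll 0 then (Real.log n : ℂ) else 1) else 0) n =
        (a0 * (L - Lz)) n := by
      change cv (if b then cn N a0 else 0 : ℕ → ℂ) (fun n => if z < n then (if true = true then (Real.log n : ℂ) else 1) else 0) n = _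
      by_cases hbb : b = true
      · rw [if_pos hbb]
        refine cv_eq hn1 hnN a0 (L - Lz) _ _ (hcn a0) fun d hd1 hd2 => ?_
        rw [hLz, vco, hb1 hbb, if_pos rfl]
        rfl
      · have hbf : b = false := by simpa using hbb
        rw [if_neg hbb]
        have h0 : L - Lz = 0 := by
          ext d
          rw [hLz, vco]
          split_ifs with h1
          · rw [hb2 hbf d h1]; simp
          · simp
        rw [h0, mul_zero, ArithmeticFunction.zero_apply]
        unfold cv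
        simp
    have e1 : cv (aa 1) (fun n => if z < n then (if ll 1 then (Real.log n : ℂ) else 1) else 0) n =
        (a1 * (Z - Zz)) n := by
      refine cv_eq hn1 hnN a1 (Z - Zz) _ _ (hcn a1) fun d hd1 hd2 => ?_
      rw [hZz, vco, hZ, cZ_apply d hd1]
      simp [ll]
    have e2 : cv (aa 2) (fun n => if z < n then (if ll 2 then (Real.log n : ℂ) else 1) else 0) n = 0 := by
      change cv (0 : ℕ → ℂ) _ n = 0
      unfold cv
      simp
    have e3 : cv (al 0) (be 0) n = ((A - Ap) * b0) n := cv_eq hn1 hnN _ _ _ _ (hcn _) (hcn _)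
    have e4 : cv (al 1) (be 1) n = ((Zz - Zp) * c1) n := cv_eq hn1 hnN _ _ _ _ (hcn _) (hcn _)
    have e5 : cv (al 2) (be 2) n = ((Lz - Lp) * c2) n := cv_eq hn1 hnN _ _ _ _ (hcn _) (hcn _)
    change f n = ∑ i : Fin 3, (cv (aa i) (fun n => if z < n then (if ll i then (Real.log n : ℂ) else 1) else 0) n +
      cv (al i) (be i) n)
    rw [Fin.sum_univ_three, e0, e1, e2, e3, e4, e5, key n (hnN.trans hNz)]
    simp only [ArithmeticFunction.add_apply]
    have h6 := hzero n hn
    simp only [ArithmeticFunction.add_apply] at h6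
    rw [h6]
    ring

/-- **DEC** -/
theorem dec : S_DEC := by
  intro N z P hN hNz hP hPz
  have hN1 : (1 : ℝ) ≤ N := by exact_mod_cast (by omega : 1 ≤ N)
  constructor
  · refine dec_gen cMu 1 cMu_mul N z P hN hNz hP hPz (fun n _ _ => ?_) false (fun h => by simp at h)
      (fun _ n hn => ?_)
    · have h0 : 0 ≤ Real.log (N : ℝ) := Real.log_natCast_nonneg N
      rw [ArithmeticFunction.one_apply]
      split_ifs
      · rw [norm_one]; linarith
      · rw [norm_zero]; linarith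
    · rw [ArithmeticFunction.one_apply, if_neg (by omega)]
  · refine dec_gen cLam cLog cLam_mul N z P hN hNz hP hPz (fun n h1 h2 => ?_) true (fun _ => rfl)
      (fun h => by simp at h)
    change ‖((Real.log n : ℝ) : ℂ)‖ ≤ _
    rw [Complex.norm_real, Real.norm_eq_abs, abs_of_nonneg (Real.log_natCast_nonneg n)]
    have h3 : Real.log n ≤ Real.log N := by
      apply Real.log_le_log
      · exact_mod_cast h1
      · exact_mod_cast h2
    linarith

end Pool.Agent.V5helper59.MW
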