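import Pool.Agent.V5helper51.MW.Stm

/-! # Project MW: elementary facts on windows (jobs ELM, SUB) -/

set_option autoImplicit false

namespace Pool.Agent.V5helper59.MW

open Finset
open Pool.Agent.H807R2.Dav (ee norm_ee ee_add dd dd_le)
open Pool.Agent.V5helper51.CM (Bw)
open Pool.Agent.V5helper51.MW

/-- the window -/
def Ws (N Y m : ℕ) : Finset ℕ := (Icc 1 N).filter (fun l => l ≤ m ∧ m < l + Y)

lemma Bw_eq (G : ℕ → ℂ) (N Y : ℕ) (r : ℝ) (m : ℕ) : Bw G N Y r m = ∑ l ∈ Ws N Y m, G l * ee (l * r) := rfl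

lemma mem_Ws {N Y m l : ℕ} : l ∈ Ws N Y m ↔ (1 ≤ l ∧ l ≤ N) ∧ l ≤ m ∧ m < l + Y := by
  unfold Ws
  rw [mem_filter, mem_Icc]

lemma card_Ws (N Y m : ℕ) : (Ws N Y m).card ≤ Y := by
  have h1 : Ws N Y m ⊆ Ioc (m - Y) m := by
    intro l hl
    rw [mem_Ws] at hl
    rw [mem_Ioc]
    omega
  have h2 := card_le_card h1
  rw [Nat.card_Ioc] at h2
  omega

/-- **ELM1** -/
theorem elm1 : S_ELM1 := by
  intro G N Y γ
  unfold Wn
  have h1 : ∀ m ∈ range (N + Y), ‖Bw G N Y γ m‖ ^ 2 ≤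
      Y * ∑ l ∈ Icc 1 N, if l ≤ m ∧ m < l + Y then ‖G l‖ ^ 2 else 0 := by
    intro m _
    rw [Bw_eq]
    have a1 : ‖∑ l ∈ Ws N Y m, G l * ee (l * γ)‖ ≤ ∑ l ∈ Ws N Y m, ‖G l‖ := by
      refine (norm_sum_le _ _).trans (sum_le_sum fun l _ => ?_)
      rw [norm_mul, norm_ee, mul_one]
    have a2 : ‖∑ l ∈ Ws N Y m, G l * ee (l * γ)‖ ^ 2 ≤ (∑ l ∈ Ws N Y m, ‖G l‖) ^ 2 :=
      pow_le_pow_left₀ (norm_nonneg _) a1 2
    have a3 : (∑ l ∈ Ws N Y m, ‖G l‖) ^ 2 ≤ (Ws N Y m).card * ∑ l ∈ Ws N Y m, ‖G l‖ ^ 2 :=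
      sq_sum_le_card_mul_sum_sq
    have a4 : ∑ l ∈ Ws N Y m, ‖G l‖ ^ 2 = ∑ l ∈ Icc 1 N, if l ≤ m ∧ m < l + Y then ‖G l‖ ^ 2 else 0 := by
      unfold Ws
      rw [sum_filter]
    rw [a4] at a3
    refine a2.trans (a3.trans ?_)
    refine mul_le_mul_of_nonneg_right (by exact_mod_cast card_Ws N Y m) ?_
    exact sum_nonneg fun l _ => by split_ifs <;> positivity
  refine (sum_le_sum h1).trans ?_
  have e0 : (Y : ℝ) ^ 2 * ∑ l ∈ Icc 1 N, ‖G l‖ ^ 2 = Y * ∑ l ∈ Icc 1 N, (Y : ℝ) * ‖G l‖ ^ 2 := by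
    rw [← mul_sum]
    ring
  rw [← mul_sum, sum_comm, e0]
  refine mul_le_mul_of_nonneg_left (sum_le_sum fun l _ => ?_) (Nat.cast_nonneg _)
  rw [← sum_filter, sum_const, nsmul_eq_mul]
  refine mul_le_mul_of_nonneg_right ?_ (sq_nonneg _)
  have h2 : ((range (N + Y)).filter fun m => l ≤ m ∧ m < l + Y) ⊆ Ico l (l + Y) := by
    intro m hm
    rw [mem_filter] at hm
    rw [mem_Ico]
    exact hm.2
  have h3 := card_le_card h2
  rw [Nat.card_Ico] at h3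
  exact_mod_cast (by omega : ((range (N + Y)).filter fun m => l ≤ m ∧ m < l + Y).card ≤ Y)

/-- **ELM2** -/
theorem elm2 : S_ELM2 := by
  intro k G N Y γ
  unfold Wn
  rw [sum_comm, mul_sum]
  refine sum_le_sum fun m _ => ?_
  have h1 : Bw (fun n => ∑ i, G i n) N Y γ m = ∑ i, Bw (G i) N Y γ m := by
    simp only [Bw_eq, sum_mul]
    rw [sum_comm]
  rw [h1]
  have h2 : ‖∑ i, Bw (G i) N Y γ m‖ ^ 2 ≤ (∑ i, ‖Bw (G i) N Y γ m‖) ^ 2 :=
    pow_le_pow_left₀ (norm_nonneg _) (norm_sum_le _ _) 2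
  refine h2.trans ?_
  have h3 := sq_sum_le_card_mul_sum_sq (s := (univ : Finset (Fin k))) (f := fun i => ‖Bw (G i) N Y γ m‖)
  rwa [card_univ, Fintype.card_fin] at h3

/-- **ELM3** -/
theorem elm3 : S_ELM3 := by
  intro G G' N Y γ h
  unfold Wn
  refine sum_congr rfl fun m _ => ?_
  rw [Bw_eq, Bw_eq]
  congr 2
  refine sum_congr rfl fun l hl => ?_
  rw [h l (mem_of_mem_filter l hl)]

/-- the decomposition of a window into shorter ones -/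
lemma Ws_split (N Y Y₁ m k : ℕ) (hk : k * Y₁ ≤ Y) (f : ℕ → ℂ) :
    ∑ l ∈ Ws N Y m, f l = ∑ i ∈ range k, ∑ l ∈ Ws N Y₁ (m - i * Y₁), f l +
      ∑ l ∈ (Ws N Y m).filter (fun l => l + k * Y₁ ≤ m), f l := by
  induction k with
  | zero =>
    rw [range_zero, sum_empty, zero_add, filter_true_of_mem]
    intro l hl
    rw [mem_Ws] at hl
    omega
  | succ k ih =>
    have hk' : k * Y₁ ≤ Y := by
      have : (k + 1) * Y₁ = k * Y₁ + Y₁ := by ring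
      omega
    have e1 : (k + 1) * Y₁ = k * Y₁ + Y₁ := by ring
    rw [ih hk', sum_range_succ, add_assoc]
    congr 1
    rw [e1] at hk ⊢
    generalize k * Y₁ = t at *
    rw [← sum_union]
    · congr 1
      ext l
      simp only [mem_union, mem_filter, mem_Ws]
      omega
    · rw [disjoint_left]
      intro l hl hl'
      simp only [mem_filter, mem_Ws] at hl hl'
      omega

/-- one short window: change of the frequency -/
lemma short (G : ℕ → ℂ) (N Y₁ m : ℕ) (γ r A : ℝ) (hG : ∀ l ∈ Icc 1 N, ‖G l‖ ≤ A) (hA : 0 ≤ A) :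
    ‖∑ l ∈ Ws N Y₁ m, G l * ee (l * γ)‖ ≤ ‖Bw G N Y₁ r m‖ + Y₁ * (A * (2 * Real.pi * (Y₁ * |γ - r|))) := by
  have h1 : ∑ l ∈ Ws N Y₁ m, G l * ee (l * γ) = ee (m * (γ - r)) * Bw G N Y₁ r m +
      ∑ l ∈ Ws N Y₁ m, G l * ee (m * (γ - r)) * ee (l * r) * (ee (((l : ℝ) - m) * (γ - r)) - 1) := by
    rw [Bw_eq, mul_sum, ← sum_add_distrib]
    refine sum_congr rfl fun l _ => ?_
    have : (l : ℝ) * γ = m * (γ - r) + l * r + (l - m) * (γ - r) := by ring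
    rw [this, ee_add, ee_add]
    ring
  rw [h1]
  refine (norm_add_le _ _).trans ?_
  rw [norm_mul, norm_ee, one_mul]
  refine add_le_add le_rfl ?_
  refine (norm_sum_le _ _).trans ?_
  refine (sum_le_sum (g := fun _ => A * (2 * Real.pi * (Y₁ * |γ - r|))) fun l hl => ?_).trans ?_
  · rw [norm_mul, norm_mul, norm_mul, norm_ee, norm_ee, mul_one, mul_one]
    have hl1 : l ∈ Icc 1 N := mem_of_mem_filter l hl
    rw [mem_Ws] at hl
    refine mul_le_mul (hG l hl1) ?_ (norm_nonneg _) hA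
    rw [← norm_neg, neg_sub]
    refine (dd_le _).trans ?_
    refine mul_le_mul_of_nonneg_left ?_ (by positivity)
    rw [abs_mul]
    refine mul_le_mul_of_nonneg_right ?_ (abs_nonneg _)
    have h2 : (l : ℝ) ≤ m := by exact_mod_cast hl.2.1
    have h3 : (m : ℝ) < l + Y₁ := by exact_mod_cast hl.2.2
    rw [abs_le]
    constructor <;> linarith
  · rw [sum_const, nsmul_eq_mul]
    refine mul_le_mul_of_nonneg_right (by exact_mod_cast card_Ws N Y₁ m) ?_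
    positivity

lemma Bw_zero (G : ℕ → ℂ) (N Y : ℕ) (r : ℝ) : Bw G N Y r 0 = 0 := by
  rw [Bw_eq]
  apply sum_eq_zero
  intro l hl
  rw [mem_Ws] at hl
  omega

lemma Bw_big (G : ℕ → ℂ) (N Y : ℕ) (r : ℝ) {m : ℕ} (hm : N + Y ≤ m) : Bw G N Y r m = 0 := by
  rw [Bw_eq]
  apply sum_eq_zero
  intro l hl
  rw [mem_Ws] at hl
  omega

lemma shift_sum (G : ℕ → ℂ) (N Y₁ M t : ℕ) (r : ℝ) :
    ∑ m ∈ range M, ‖Bw G N Y₁ r (m - t)‖ ^ 2 ≤ Wn G N Y₁ r := by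
  have h1 : ∑ m ∈ range M, ‖Bw G N Y₁ r (m - t)‖ ^ 2 =
      ∑ m ∈ (range M).filter (fun m => t ≤ m), ‖Bw G N Y₁ r (m - t)‖ ^ 2 := by
    rw [sum_filter]
    refine sum_congr rfl fun m _ => ?_
    split_ifs with h
    · rfl
    · rw [Nat.sub_eq_zero_of_le (by omega), Bw_zero]
      simp
  have h2 : ∑ m ∈ (range M).filter (fun m => t ≤ m), ‖Bw G N Y₁ r (m - t)‖ ^ 2 =
      ∑ m ∈ ((range M).filter (fun m => t ≤ m)).image (fun m => m - t), ‖Bw G N Y₁ r m‖ ^ 2 := by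
    rw [sum_image]
    intro a ha b hb hab
    simp only [coe_filter, mem_range, Set.mem_ofPred_eq] at ha hb
    simp only at hab
    omega
  have h3 : Wn G N Y₁ r = ∑ m ∈ range (N + Y₁ + M), ‖Bw G N Y₁ r m‖ ^ 2 := by
    unfold Wn
    apply sum_subset
    · intro m hm
      rw [mem_range] at hm ⊢
      omega
    · intro m _ hm
      rw [mem_range] at hm
      rw [Bw_big G N Y₁ r (by omega)]
      simp
  rw [h1, h2, h3]
  apply sum_le_sum_of_subset_of_nonneg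
  · intro m hm
    rw [mem_image] at hm
    obtain ⟨a, ha, rfl⟩ := hm
    rw [mem_filter, mem_range] at ha
    rw [mem_range]
    omega
  · intro _ _ _
    positivity

/-- **SUB** -/
theorem sub : S_SUB := by
  intro G N Y Y₁ γ r A hY₁ hYY hYN hG
  have hA : 0 ≤ A := (norm_nonneg _).trans (hG 1 (by rw [mem_Icc]; omega))
  obtain ⟨k, hk⟩ : ∃ k, k = Y / Y₁ := ⟨_, rfl⟩
  have hkY : k * Y₁ ≤ Y := by rw [hk]; exact Nat.div_mul_le_self Y Y₁
  have hkY' : Y < k * Y₁ + Y₁ := by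
    rw [hk, mul_comm]
    exact Nat.lt_mul_div_succ Y (by omega)
  obtain ⟨D, hD⟩ : ∃ D : ℝ, D = Y₁ * |γ - r| := ⟨_, rfl⟩
  have hD0 : 0 ≤ D := by rw [hD]; positivity
  have hY10 : (0 : ℝ) < Y₁ := by exact_mod_cast hY₁
  have hY0 : (0 : ℝ) < Y := by exact_mod_cast (by omega : 0 < Y)
  -- pointwise
  have h1 : ∀ m, ‖Bw G N Y γ m‖ ≤ ∑ i ∈ range k, ‖Bw G N Y₁ r (m - i * Y₁)‖ +
      Y * (A * (2 * Real.pi * D)) + Y₁ * A := by
    intro m
    rw [Bw_eq, Ws_split N Y Y₁ m k hkY]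
    refine (norm_add_le _ _).trans (add_le_add ?_ ?_)
    · refine (norm_sum_le _ _).trans ?_
      refine (sum_le_sum fun i _ => short G N Y₁ (m - i * Y₁) γ r A hG hA).trans ?_
      rw [sum_add_distrib, sum_const, card_range, nsmul_eq_mul, ← hD]
      refine add_le_add le_rfl ?_
      rw [← mul_assoc]
      refine mul_le_mul_of_nonneg_right (by exact_mod_cast hkY) (by positivity)
    · refine (norm_sum_le _ _).trans ?_
      refine (sum_le_sum (g := fun _ => A) fun l hl => ?_).trans ?_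
      · rw [norm_mul, norm_ee, mul_one]
        exact hG l (mem_of_mem_filter l (mem_of_mem_filter l hl))
      · rw [sum_const, nsmul_eq_mul]
        refine mul_le_mul_of_nonneg_right ?_ hA
        have h2 : (Ws N Y m).filter (fun l => l + k * Y₁ ≤ m) ⊆ Ioc (m - Y) (m - k * Y₁) := by
          intro l hl
          rw [mem_filter, mem_Ws] at hl
          rw [mem_Ioc]
          omega
        have h3 := card_le_card h2
        rw [Nat.card_Ioc] at h3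
        exact_mod_cast (by omega : ((Ws N Y m).filter (fun l => l + k * Y₁ ≤ m)).card ≤ Y₁)
  have h2 : ∀ m, ‖Bw G N Y γ m‖ ^ 2 ≤ 3 * (k * ∑ i ∈ range k, ‖Bw G N Y₁ r (m - i * Y₁)‖ ^ 2) +
      3 * ((Y * (A * (2 * Real.pi * D))) ^ 2 + (Y₁ * A) ^ 2) := by
    intro m
    have a1 := pow_le_pow_left₀ (norm_nonneg _) (h1 m) 2
    have a2 := sq_sum_le_card_mul_sum_sq (s := range k) (f := fun i => ‖Bw G N Y₁ r (m - i * Y₁)‖)
    rw [card_range] at a2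
    refine a1.trans ?_
    generalize ∑ i ∈ range k, ‖Bw G N Y₁ r (m - i * Y₁)‖ = a at *
    generalize (Y : ℝ) * (A * (2 * Real.pi * D)) = b at *
    generalize (Y₁ : ℝ) * A = c at *
    nlinarith [sq_nonneg (a - b), sq_nonneg (a - c), sq_nonneg (b - c)]
  have h3 : Wn G N Y γ ≤ 3 * (k * (k * Wn G N Y₁ r)) +
      ((N + Y : ℕ) : ℝ) * (3 * ((Y * (A * (2 * Real.pi * D))) ^ 2 + (Y₁ * A) ^ 2)) := by
    conv_lhs => unfold Wn
    refine (sum_le_sum fun m _ => h2 m).trans ?_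
    rw [sum_add_distrib, sum_const, card_range, nsmul_eq_mul]
    refine add_le_add ?_ le_rfl
    rw [← mul_sum, ← mul_sum, sum_comm]
    have : ∑ i ∈ range k, ∑ m ∈ range (N + Y), ‖Bw G N Y₁ r (m - i * Y₁)‖ ^ 2 ≤ k * Wn G N Y₁ r := by
      refine (sum_le_sum fun i _ => shift_sum G N Y₁ (N + Y) (i * Y₁) r).trans ?_
      rw [sum_const, card_range, nsmul_eq_mul]
    gcongr
  refine h3.trans ?_
  have hW : 0 ≤ Wn G N Y₁ r := sum_nonneg fun _ _ => sq_nonneg _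
  refine add_le_add ?_ ?_
  · have hk1 : (k : ℝ) ≤ Y / Y₁ := by
      rw [le_div_iff₀ hY10]
      exact_mod_cast hkY
    have hk2 : (k : ℝ) * k ≤ ((Y : ℝ) / Y₁) ^ 2 := by
      rw [sq]
      exact mul_le_mul hk1 hk1 (Nat.cast_nonneg _) (by positivity)
    calc 3 * ((k : ℝ) * (k * Wn G N Y₁ r)) = 3 * (k * k) * Wn G N Y₁ r := by ring
      _ ≤ 3 * ((Y : ℝ) / Y₁) ^ 2 * Wn G N Y₁ r := by gcongr
  · rw [← hD]
    have hNY : ((N + Y : ℕ) : ℝ) ≤ 2 * N := by exact_mod_cast (by omega : N + Y ≤ 2 * N)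
    have hpi : Real.pi ^ 2 ≤ 10 := by
      have h1 := Real.pi_lt_d2
      have h2 := Real.pi_pos
      nlinarith
    have e2 : ((Y₁ : ℝ) * A) ^ 2 = (Y : ℝ) ^ 2 * A ^ 2 * ((Y₁ : ℝ) / Y) ^ 2 := by
      field_simp
    have e1 : ((Y : ℝ) * (A * (2 * Real.pi * D))) ^ 2 ≤ (Y : ℝ) ^ 2 * A ^ 2 * (40 * D ^ 2) := by
      have : ((Y : ℝ) * (A * (2 * Real.pi * D))) ^ 2 = (Y : ℝ) ^ 2 * A ^ 2 * (4 * Real.pi ^ 2 * D ^ 2) := by ring
      rw [this]
      gcongr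
      linarith
    have e3 : 0 ≤ (Y : ℝ) ^ 2 * A ^ 2 * ((Y₁ : ℝ) / Y) ^ 2 := by positivity
    calc ((N + Y : ℕ) : ℝ) * (3 * ((Y * (A * (2 * Real.pi * D))) ^ 2 + (Y₁ * A) ^ 2))
        ≤ (2 * N) * (3 * ((Y : ℝ) ^ 2 * A ^ 2 * (40 * D ^ 2) + (Y : ℝ) ^ 2 * A ^ 2 * ((Y₁ : ℝ) / Y) ^ 2)) := by
          rw [e2]
          gcongr
      _ = N * (Y : ℝ) ^ 2 * A ^ 2 * (240 * D ^ 2 + 6 * ((Y₁ : ℝ) / Y) ^ 2) := by ring
      _ ≤ N * (Y : ℝ) ^ 2 * A ^ 2 * (300 * D ^ 2 + 300 * ((Y₁ : ℝ) / Y) ^ 2) := by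
          gcongr <;> norm_num
      _ = 300 * N * (Y : ℝ) ^ 2 * A ^ 2 * (D ^ 2 + ((Y₁ : ℝ) / Y) ^ 2) := by ring

end Pool.Agent.V5helper59.MW
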