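import Pool.Agent.V5helper51.MW.Stm
import Pool.Agent.V5helper24.CR.All
import Pool.Agent.V5helper24.CR.LZ

/-! # Project MW: short windows at all frequencies, the assembly (job MWA) -/

set_option autoImplicit false

namespace Pool.Agent.V5helper59.MW

open Finset
open Pool.Agent.H807R2.Dav (ee norm_ee ee_add ee_add_int)
open Pool.Agent.V5helper51.CM (Bw)
open Pool.Agent.R460.SQ (DZ bd_DZ)
open Pool.Agent.H373R2.T7 (lamz Vz)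
open Pool.Agent.Y614.GJ.Core (ev_log)
open Pool.Agent.V5helper51.MW

/-- `MINZ` with the exponent independent of `E` -/
def S_MINZ1 : Prop := ∀ U : ℕ, ∃ C : ℕ, ∀ E : ℕ, ∃ N₀ : ℕ, ∀ N : ℕ, N₀ ≤ N → ∀ z P Y : ℕ, 1 ≤ z →
  (z : ℝ) ≤ Real.log N ^ E →
  (Vz z)⁻¹ ≤ Real.log N → Real.log N ^ C ≤ P → (P : ℝ) ≤ (N : ℝ) ^ (1 / 20 : ℝ) → (N : ℝ) ^ (1 / 4 : ℝ) ≤ Y → Y ^ 2 ≤ N →
  ∀ γ : ℝ, Mnr P Y γ → Wn (fun n => ((lamz z n : ℝ) : ℂ)) N Y γ ≤ N * (Y : ℝ) ^ 2 / Real.log N ^ U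

lemma Bw_per (G : ℕ → ℂ) (N Y : ℕ) (γ : ℝ) (k : ℤ) (m : ℕ) : Bw G N Y (γ + k) m = Bw G N Y γ m := by
  unfold Bw
  refine sum_congr rfl fun l _ => ?_
  have : (l : ℝ) * (γ + k) = l * γ + ((l * k : ℤ) : ℝ) := by push_cast; ring
  rw [this, ee_add_int]

lemma Wn_per (G : ℕ → ℂ) (N Y : ℕ) (γ : ℝ) (k : ℤ) : Wn G N Y (γ + k) = Wn G N Y γ := by
  unfold Wn
  exact sum_congr rfl fun m _ => by rw [Bw_per]

lemma Mnr_mono {Q Q' : ℝ} {Y : ℕ} {γ : ℝ} (h : Q ≤ Q') (hM : Mnr Q' Y γ) : Mnr Q Y γ := fun q h1 h2 a =>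
  h.trans_lt (hM q h1 (h2.trans h) a)

/-- the frequencies near the rational numbers -/
lemma nonminor (hsub : S_SUB) (G : ℕ → ℂ) (N Y Y₁ P : ℕ) (γ A M δ : ℝ) (h1 : 1 ≤ Y₁) (h2 : Y₁ ≤ Y) (h3 : Y ≤ N)
    (hG : ∀ l ∈ Icc 1 N, ‖G l‖ ≤ A) (hn : ¬ Mnr P Y γ) (hP : 1 ≤ P) (hδ : (Y₁ : ℝ) * P ≤ δ * Y)
    (hmaj : ∀ q : ℕ, 1 ≤ q → q ≤ P → ∀ a : ℕ, Wn G N Y₁ ((a : ℝ) / q) ≤ M * (N * (Y₁ : ℝ) ^ 2)) :
    Wn G N Y γ ≤ N * (Y : ℝ) ^ 2 * (3 * M + 600 * A ^ 2 * δ ^ 2) := by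
  unfold Mnr at hn
  push Not at hn
  obtain ⟨q, hq1, hqP, a, ha⟩ := hn
  have hq0 : (0 : ℝ) < q := by exact_mod_cast hq1
  have hq1r : (1 : ℝ) ≤ q := by exact_mod_cast hq1
  have hY0 : (0 : ℝ) < Y := by exact_mod_cast (by omega : 0 < Y)
  have hY10 : (0 : ℝ) < Y₁ := by exact_mod_cast h1
  have hP1 : (1 : ℝ) ≤ P := by exact_mod_cast hP
  -- reduce the numerator
  obtain ⟨a', ha'⟩ : ∃ a' : ℕ, (a' : ℤ) = a % q := ⟨(a % q).toNat, Int.toNat_of_nonneg (Int.emod_nonneg _ (by omega))⟩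
  obtain ⟨k, hk⟩ : ∃ k : ℤ, k = a / q := ⟨_, rfl⟩
  have hak : (a : ℝ) = a' + k * q := by
    have : a = a' + k * q := by
      rw [ha', hk, mul_comm]
      exact (Int.emod_add_mul_ediv a q).symm
    exact_mod_cast this
  have e1 : Wn G N Y γ = Wn G N Y (γ + ((-k : ℤ) : ℝ)) := (Wn_per G N Y γ (-k)).symm
  have e2 : |γ + ((-k : ℤ) : ℝ) - (a' : ℝ) / q| ≤ P / Y := by
    have e3 : γ + ((-k : ℤ) : ℝ) - (a' : ℝ) / q = (q * γ - a) / q := by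
      rw [hak]
      push_cast
      field_simp
      ring
    rw [e3, abs_div, abs_of_pos hq0, div_le_iff₀ hq0, div_mul_eq_mul_div, le_div_iff₀ hY0]
    have : |(q : ℝ) * γ - a| * Y = Y * |(q : ℝ) * γ - a| := mul_comm _ _
    rw [this]
    refine ha.trans ?_
    nlinarith
  rw [e1]
  refine (hsub G N Y Y₁ (γ + ((-k : ℤ) : ℝ)) ((a' : ℝ) / q) A h1 h2 h3 hG).trans ?_
  have f1 : (Y₁ : ℝ) * |γ + ((-k : ℤ) : ℝ) - (a' : ℝ) / q| ≤ δ := by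
    calc (Y₁ : ℝ) * |γ + ((-k : ℤ) : ℝ) - (a' : ℝ) / q| ≤ Y₁ * (P / Y) := by gcongr
      _ = Y₁ * P / Y := by ring
      _ ≤ δ := by rw [div_le_iff₀ hY0]; exact hδ
  have f2 : (Y₁ : ℝ) / Y ≤ δ := by
    rw [div_le_iff₀ hY0]
    refine le_trans ?_ hδ
    nlinarith
  have f3 : Wn G N Y₁ ((a' : ℝ) / q) ≤ M * (N * (Y₁ : ℝ) ^ 2) := hmaj q hq1 (by exact_mod_cast hqP) a'
  calc 3 * ((Y : ℝ) / Y₁) ^ 2 * Wn G N Y₁ ((a' : ℝ) / q) + 300 * N * (Y : ℝ) ^ 2 * A ^ 2 *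
        ((Y₁ * |γ + ((-k : ℤ) : ℝ) - (a' : ℝ) / q|) ^ 2 + ((Y₁ : ℝ) / Y) ^ 2)
      ≤ 3 * ((Y : ℝ) / Y₁) ^ 2 * (M * (N * (Y₁ : ℝ) ^ 2)) + 300 * N * (Y : ℝ) ^ 2 * A ^ 2 * (δ ^ 2 + δ ^ 2) := by
        gcongr
    _ = N * (Y : ℝ) ^ 2 * (3 * M + 600 * A ^ 2 * δ ^ 2) := by
        field_simp
        ring

lemma Wn_nonneg (G : ℕ → ℂ) (N Y : ℕ) (γ : ℝ) : 0 ≤ Wn G N Y γ := sum_nonneg fun _ _ => sq_nonneg _

/-- the assembly -/
theorem asm_all (hsub : S_SUB) (U C₁ C₂ K₂ : ℕ) : ∃ C N₀ : ℕ, ∀ N : ℕ, N₀ ≤ N → ∀ G : ℕ → ℂ,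
    (∀ l ∈ Icc 1 N, ‖G l‖ ≤ Real.log N ^ 2) →
    (∀ P Y : ℕ, Real.log N ^ C₁ ≤ P → (P : ℝ) ≤ 2 * Real.log N ^ C₁ →
      (N : ℝ) ^ (1 / 3 : ℝ) * Real.log N ^ (2 * C₁) ≤ Y → Y ^ 2 ≤ N → ∀ γ : ℝ, Mnr P Y γ →
      Wn G N Y γ ≤ N * (Y : ℝ) ^ 2 / Real.log N ^ (U + 1)) →
    (∀ q : ℕ, 1 ≤ q → (q : ℝ) ≤ Real.log N ^ (C₁ + 1) → ∀ a Y : ℕ,
      (N : ℝ) ^ (1 / 3 : ℝ) * Real.log N ^ C₂ ≤ Y → (Y : ℝ) * Real.log N ^ K₂ ≤ N →
      Wn G N Y ((a : ℝ) / q) ≤ N * (Y : ℝ) ^ 2 / Real.log N ^ (U + 2)) →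
    ∀ Y : ℕ, (N : ℝ) ^ (1 / 3 : ℝ) * Real.log N ^ C ≤ Y → Y ≤ N → ∀ γ : ℝ,
      Wn G N Y γ ≤ N * (Y : ℝ) ^ 2 / Real.log N ^ U := by
  obtain ⟨V, hV⟩ : ∃ V, V = U + 5 := ⟨_, rfl⟩
  obtain ⟨C, hC⟩ : ∃ C, C = 2 * C₁ + C₂ + V + 1 := ⟨_, rfl⟩
  obtain ⟨N₁, hN₁⟩ := Filter.eventually_atTop.1 (ev_log (C + K₂ + V + 1) (s := 1 / 60) (by norm_num) 100)
  refine ⟨C, N₁ + 1, fun N hN G hG hmin hmaj => ?_⟩
  obtain ⟨hL100, hLT⟩ := hN₁ N (by omega)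
  obtain ⟨L, hL⟩ : ∃ L, L = Real.log (N : ℝ) := ⟨_, rfl⟩
  obtain ⟨T, hT⟩ : ∃ T, T = (N : ℝ) ^ (1 / 60 : ℝ) := ⟨_, rfl⟩
  have hN1 : 1 ≤ N := by omega
  have hN0 : (0 : ℝ) < N := by exact_mod_cast hN1
  have hT60 : T ^ 60 = N := by
    rw [hT, ← Real.rpow_natCast, ← Real.rpow_mul hN0.le]
    norm_num
  have hT20 : (N : ℝ) ^ (1 / 3 : ℝ) = T ^ 20 := by
    rw [hT, ← Real.rpow_natCast, ← Real.rpow_mul hN0.le]
    norm_num
  rw [← hL] at hL100 hG hmaj hmin ⊢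
  rw [← hL, ← hT] at hLT
  rw [hT20] at hmaj hmin ⊢
  have hL1 : 1 ≤ L := by linarith
  have hL0 : 0 < L := by linarith
  have hLp : ∀ i j : ℕ, i ≤ j → L ^ i ≤ L ^ j := fun i j h => pow_le_pow_right₀ hL1 h
  have hLT' : ∀ i : ℕ, i ≤ C + K₂ + V + 1 → L ^ i ≤ T := fun i h => (hLp i _ h).trans hLT
  have hT100 : 100 ≤ T := by
    have := hLT' 1 (by omega)
    rw [pow_one] at this
    linarith
  have hT1 : 1 ≤ T := by linarith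
  have hT0 : 0 < T := by linarith
  have hTp : ∀ i j : ℕ, i ≤ j → T ^ i ≤ T ^ j := fun i j h => pow_le_pow_right₀ hT1 h
  -- the number P
  obtain ⟨P, hP⟩ : ∃ P, P = ⌈L ^ C₁⌉₊ := ⟨_, rfl⟩
  have hLC1 : 1 ≤ L ^ C₁ := one_le_pow₀ hL1
  have hP1 : L ^ C₁ ≤ P := by rw [hP]; exact Nat.le_ceil _
  have hP2 : (P : ℝ) ≤ 2 * L ^ C₁ := by
    have := Nat.ceil_lt_add_one (by positivity : (0 : ℝ) ≤ L ^ C₁)
    rw [← hP] at this
    linarith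
  have hP1n : 1 ≤ P := by
    have : (1 : ℝ) ≤ P := by linarith
    exact_mod_cast this
  have hP0 : (0 : ℝ) < P := by linarith
  have hPB : (P : ℝ) ≤ L ^ (C₁ + 1) := by
    rw [pow_succ]
    nlinarith
  -- first case
  have hA : ∀ Y : ℕ, T ^ 20 * L ^ C ≤ Y → Y ^ 2 ≤ N → ∀ γ : ℝ, Wn G N Y γ ≤ N * (Y : ℝ) ^ 2 / L ^ (U + 1) := by
    intro Y hY1 hY2 γ
    have hYr2 : (Y : ℝ) ^ 2 ≤ N := by exact_mod_cast hY2
    have hY0 : (0 : ℝ) < Y := lt_of_lt_of_le (by positivity) hY1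
    have hYN : Y ≤ N := by
      have : Y ≤ Y ^ 2 := Nat.le_self_pow (by norm_num) Y
      omega
    have hYT : (Y : ℝ) ≤ T ^ 30 := by
      rw [← hT60] at hYr2
      have : (Y : ℝ) ^ 2 ≤ (T ^ 30) ^ 2 := by rw [← pow_mul]; exact hYr2
      exact le_of_sq_le_sq this (by positivity)
    by_cases hM : Mnr P Y γ
    · refine hmin P Y hP1 hP2 (le_trans ?_ hY1) hY2 γ hM
      have := hLp (2 * C₁) C (by omega)
      gcongr
    · obtain ⟨Y₁, hY₁⟩ : ∃ Y₁, Y₁ = ⌊(Y : ℝ) / (P * L ^ V)⌋₊ := ⟨_, rfl⟩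
      have g0 : (0 : ℝ) < P * L ^ V := by positivity
      have g1 : 4 * L ^ C₂ * T ^ 20 ≤ 2 * ((Y : ℝ) / (P * L ^ V)) := by
        rw [← mul_div_assoc, le_div_iff₀ g0]
        have k1 : (P : ℝ) * L ^ V ≤ 2 * L ^ C₁ * L ^ V := by gcongr
        have k2 : L ^ C = L ^ (2 * C₁) * L ^ C₂ * L ^ V * L := by rw [hC]; ring
        have k3 : L ^ C₁ ≤ L ^ (2 * C₁) := hLp _ _ (by omega)
        calc 4 * L ^ C₂ * T ^ 20 * (P * L ^ V) ≤ 4 * L ^ C₂ * T ^ 20 * (2 * L ^ C₁ * L ^ V) := by gcongr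
          _ = 8 * (T ^ 20 * (L ^ C₁ * L ^ C₂ * L ^ V)) := by ring
          _ ≤ (2 * L) * (T ^ 20 * (L ^ (2 * C₁) * L ^ C₂ * L ^ V)) := by
              gcongr
              linarith
          _ = 2 * (T ^ 20 * L ^ C) := by rw [k2]; ring
          _ ≤ 2 * Y := by linarith
      have g2 : (1 : ℝ) ≤ L ^ C₂ * T ^ 20 := one_le_mul_of_one_le_of_one_le (one_le_pow₀ hL1) (one_le_pow₀ hT1)
      have g3 : (Y : ℝ) / (P * L ^ V) < Y₁ + 1 := by rw [hY₁]; exact Nat.lt_floor_add_one _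
      have g4 : (Y₁ : ℝ) ≤ Y / (P * L ^ V) := by rw [hY₁]; exact Nat.floor_le (by positivity)
      have g5 : L ^ C₂ * T ^ 20 ≤ Y₁ := by linarith
      have g6 : 1 ≤ Y₁ := by
        have : (1 : ℝ) ≤ Y₁ := by linarith
        exact_mod_cast this
      have g7 : (Y₁ : ℝ) * P ≤ (1 / L ^ V) * Y := by
        rw [le_div_iff₀ g0] at g4
        rw [one_div, inv_mul_eq_div, le_div_iff₀ (by positivity)]
        linarith
      have g8 : (Y₁ : ℝ) ≤ Y := by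
        refine g4.trans (div_le_self hY0.le ?_)
        exact one_le_mul_of_one_le_of_one_le (by linarith) (one_le_pow₀ hL1)
      have g9 : Y₁ ≤ Y := by exact_mod_cast g8
      have g10 : (Y₁ : ℝ) * L ^ K₂ ≤ N := by
        calc (Y₁ : ℝ) * L ^ K₂ ≤ T ^ 30 * T := by
              have := hLT' K₂ (by omega)
              have h5 : (Y₁ : ℝ) ≤ T ^ 30 := g8.trans hYT
              gcongr
          _ = T ^ 31 := by ring
          _ ≤ T ^ 60 := hTp _ _ (by norm_num)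
          _ = N := hT60
      have main := nonminor hsub G N Y Y₁ P γ (L ^ 2) (1 / L ^ (U + 2)) (1 / L ^ V) g6 g9 hYN hG hM hP1n g7
        (fun q h1 h2 a => by
          have h3 : (q : ℝ) ≤ L ^ (C₁ + 1) := le_trans (by exact_mod_cast h2) hPB
          refine (hmaj q h1 h3 a Y₁ (by linarith) g10).trans (le_of_eq ?_)
          ring)
      refine main.trans ?_
      rw [mul_div_assoc]
      have k5 : 3 * (1 / L ^ (U + 2)) + 600 * (L ^ 2) ^ 2 * (1 / L ^ V) ^ 2 ≤ 1 / L ^ (U + 1) := by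
        have e1 : 1 / L ^ (U + 2) = 1 / L ^ (U + 1) * (1 / L) := by
          rw [pow_succ L (U + 1)]
          field_simp
        have e2 : (L ^ 2) ^ 2 * (1 / L ^ V) ^ 2 = 1 / L ^ (U + 1) * (1 / L ^ (U + 5)) := by
          rw [hV]
          field_simp
          ring
        have e3 : 1 / L ≤ 1 / 100 := one_div_le_one_div_of_le (by norm_num) hL100
        have e4 : 1 / L ^ (U + 5) ≤ 1 / 1200 := by
          apply one_div_le_one_div_of_le (by norm_num)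
          have : L ^ 2 ≤ L ^ (U + 5) := hLp _ _ (by omega)
          nlinarith
        have e5 : 0 ≤ 1 / L ^ (U + 1) := by positivity
        have e6 : 600 * (L ^ 2) ^ 2 * (1 / L ^ V) ^ 2 = 600 * (1 / L ^ (U + 1) * (1 / L ^ (U + 5))) := by
          rw [← e2]; ring
        rw [e1, e6]
        nlinarith
      have k6 : (Y : ℝ) ^ 2 * (3 * (1 / L ^ (U + 2)) + 600 * (L ^ 2) ^ 2 * (1 / L ^ V) ^ 2) ≤
          (Y : ℝ) ^ 2 * (1 / L ^ (U + 1)) := mul_le_mul_of_nonneg_left k5 (by positivity)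
      calc (N : ℝ) * (Y : ℝ) ^ 2 * (3 * (1 / L ^ (U + 2)) + 600 * (L ^ 2) ^ 2 * (1 / L ^ V) ^ 2)
          = N * ((Y : ℝ) ^ 2 * (3 * (1 / L ^ (U + 2)) + 600 * (L ^ 2) ^ 2 * (1 / L ^ V) ^ 2)) := by ring
        _ ≤ N * ((Y : ℝ) ^ 2 * (1 / L ^ (U + 1))) := mul_le_mul_of_nonneg_left k6 hN0.le
        _ = N * ((Y : ℝ) ^ 2 / L ^ (U + 1)) := by ring
  -- all lengths
  intro Y hY1 hY2 γ
  by_cases hc : Y ^ 2 ≤ N
  · refine (hA Y hY1 hc γ).trans ?_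
    apply div_le_div_of_nonneg_left (by positivity) (by positivity)
    exact hLp _ _ (by omega)
  · push Not at hc
    have hcr : (N : ℝ) < (Y : ℝ) ^ 2 := by exact_mod_cast hc
    have hY0 : (0 : ℝ) < Y := lt_of_lt_of_le (by positivity) hY1
    have hYT : T ^ 30 ≤ Y := by
      rw [← hT60] at hcr
      have : (T ^ 30) ^ 2 ≤ (Y : ℝ) ^ 2 := by rw [← pow_mul]; exact hcr.le
      exact le_of_sq_le_sq this hY0.le
    obtain ⟨Y₂, hY₂⟩ : ∃ Y₂, Y₂ = ⌈T ^ 24⌉₊ := ⟨_, rfl⟩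
    have hT24 : 1 ≤ T ^ 24 := one_le_pow₀ hT1
    have b1 : T ^ 24 ≤ Y₂ := by rw [hY₂]; exact Nat.le_ceil _
    have b2 : (Y₂ : ℝ) ≤ 2 * T ^ 24 := by
      have := Nat.ceil_lt_add_one (by positivity : (0 : ℝ) ≤ T ^ 24)
      rw [← hY₂] at this
      linarith
    have hY20 : (0 : ℝ) < Y₂ := by linarith
    have b3 : Y₂ ^ 2 ≤ N := by
      have : (Y₂ : ℝ) ^ 2 ≤ N := by
        calc (Y₂ : ℝ) ^ 2 ≤ (2 * T ^ 24) ^ 2 := by gcongr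
          _ = 4 * T ^ 48 := by ring
          _ ≤ T * T ^ 48 := by gcongr; linarith
          _ = T ^ 49 := by ring
          _ ≤ T ^ 60 := hTp _ _ (by norm_num)
          _ = N := hT60
      exact_mod_cast this
    have b4 : T ^ 20 * L ^ C ≤ Y₂ := by
      refine le_trans ?_ b1
      calc T ^ 20 * L ^ C ≤ T ^ 20 * T := by
            have := hLT' C (by omega)
            gcongr
        _ = T ^ 21 := by ring
        _ ≤ T ^ 24 := hTp _ _ (by norm_num)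
    have b5 := hA Y₂ b4 b3 γ
    have b6 : (Y₂ : ℝ) ≤ (1 / L ^ V) * Y := by
      rw [one_div, inv_mul_eq_div, le_div_iff₀ (by positivity)]
      calc (Y₂ : ℝ) * L ^ V ≤ (2 * T ^ 24) * T := by
            have := hLT' V (by omega)
            gcongr
        _ ≤ T * T ^ 24 * T := by
            have : 2 * T ^ 24 ≤ T * T ^ 24 := by gcongr; linarith
            gcongr
        _ = T ^ 26 := by ring
        _ ≤ T ^ 30 := hTp _ _ (by norm_num)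
        _ ≤ Y := hYT
    have b7 : Y₂ ≤ Y := by
      have h1 : (1 : ℝ) / L ^ V ≤ 1 := by
        rw [div_le_one (by positivity)]
        exact one_le_pow₀ hL1
      have : (Y₂ : ℝ) ≤ Y := b6.trans (by nlinarith)
      exact_mod_cast this
    have b8 : 1 ≤ Y₂ := by exact_mod_cast hT24.trans b1
    refine (hsub G N Y Y₂ γ γ (L ^ 2) b8 b7 hY2 hG).trans ?_
    have b9 : (Y₂ : ℝ) / Y ≤ 1 / L ^ V := by
      rw [div_le_iff₀ hY0]; exact b6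
    have b10 : 0 ≤ (Y₂ : ℝ) / Y := by positivity
    have k5 : 3 * (1 / L ^ (U + 1)) + 300 * (L ^ 2) ^ 2 * (1 / L ^ V) ^ 2 ≤ 1 / L ^ U := by
      have e1 : 1 / L ^ (U + 1) = 1 / L ^ U * (1 / L) := by
        rw [pow_succ L U]
        field_simp
      have e2 : (L ^ 2) ^ 2 * (1 / L ^ V) ^ 2 = 1 / L ^ U * (1 / L ^ (U + 6)) := by
        rw [hV]
        field_simp
        ring
      have e3 : 1 / L ≤ 1 / 100 := one_div_le_one_div_of_le (by norm_num) hL100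
      have e4 : 1 / L ^ (U + 6) ≤ 1 / 1200 := by
        apply one_div_le_one_div_of_le (by norm_num)
        have : L ^ 2 ≤ L ^ (U + 6) := hLp _ _ (by omega)
        nlinarith
      have e5 : 0 ≤ 1 / L ^ U := by positivity
      have e6 : 300 * (L ^ 2) ^ 2 * (1 / L ^ V) ^ 2 = 300 * (1 / L ^ U * (1 / L ^ (U + 6))) := by
        rw [← e2]; ring
      rw [e1, e6]
      nlinarith
    have e0 : ((Y₂ : ℝ) * |γ - γ|) ^ 2 = 0 := by simp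
    rw [e0, zero_add]
    calc 3 * ((Y : ℝ) / Y₂) ^ 2 * Wn G N Y₂ γ + 300 * N * (Y : ℝ) ^ 2 * (L ^ 2) ^ 2 * ((Y₂ : ℝ) / Y) ^ 2
        ≤ 3 * ((Y : ℝ) / Y₂) ^ 2 * (N * (Y₂ : ℝ) ^ 2 / L ^ (U + 1)) +
          300 * N * (Y : ℝ) ^ 2 * (L ^ 2) ^ 2 * (1 / L ^ V) ^ 2 := by gcongr
      _ = N * (Y : ℝ) ^ 2 * (3 * (1 / L ^ (U + 1)) + 300 * (L ^ 2) ^ 2 * (1 / L ^ V) ^ 2) := by
          field_simp
      _ ≤ N * (Y : ℝ) ^ 2 * (1 / L ^ U) := mul_le_mul_of_nonneg_left k5 (by positivity)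
      _ = N * (Y : ℝ) ^ 2 / L ^ U := by ring

/-- the cube root -/
lemma exists_z (N : ℕ) (hN : 1 ≤ N) : ∃ z : ℕ, N ≤ z ^ 3 ∧ (z : ℝ) ≤ 2 * (N : ℝ) ^ (1 / 3 : ℝ) ∧
    (N : ℝ) ^ (1 / 3 : ℝ) ≤ z := by
  have hN0 : (0 : ℝ) ≤ N := Nat.cast_nonneg _
  have h1 : (1 : ℝ) ≤ (N : ℝ) ^ (1 / 3 : ℝ) := Real.one_le_rpow (by exact_mod_cast hN) (by norm_num)
  have h2 := Nat.le_ceil ((N : ℝ) ^ (1 / 3 : ℝ))
  have h3 := Nat.ceil_lt_add_one (by positivity : (0 : ℝ) ≤ (N : ℝ) ^ (1 / 3 : ℝ))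
  refine ⟨⌈(N : ℝ) ^ (1 / 3 : ℝ)⌉₊, ?_, by linarith, h2⟩
  have h4 : ((N : ℝ) ^ (1 / 3 : ℝ)) ^ 3 = N := by
    rw [← Real.rpow_natCast, ← Real.rpow_mul hN0]
    norm_num
  have h5 : (N : ℝ) ≤ ((⌈(N : ℝ) ^ (1 / 3 : ℝ)⌉₊ : ℕ) : ℝ) ^ 3 := by
    rw [← h4]
    gcongr
    rwa [h4]
  exact_mod_cast h5

/-- the minor arcs for functions with decompositions -/
lemma min_use (hmin : S_MIN) (U : ℕ) : ∃ C₀ : ℕ, ∀ C₁ : ℕ, C₀ ≤ C₁ → ∃ N₀ : ℕ, ∀ N : ℕ, N₀ ≤ N → ∀ g : ℕ → ℂ,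
    (∀ n ∈ Icc 1 N, ‖g n‖ ≤ Real.log N) → (∀ z P : ℕ, N ≤ z ^ 3 → 1 ≤ P → P ≤ z → Nonempty (Dec g N z P)) →
    ∀ P Y : ℕ, Real.log N ^ C₁ ≤ P →
      (N : ℝ) ^ (1 / 3 : ℝ) * Real.log N ^ (2 * C₁) ≤ Y → Y ^ 2 ≤ N → ∀ γ : ℝ, Mnr P Y γ →
      Wn g N Y γ ≤ N * (Y : ℝ) ^ 2 / Real.log N ^ U := by
  obtain ⟨C₀, N₁, h1⟩ := hmin U
  refine ⟨C₀, fun C₁ hC => ?_⟩
  obtain ⟨N₂, h2⟩ := Filter.eventually_atTop.1 (ev_log (C₀ + 1) (s := 1 / 3) (by norm_num) 100)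
  refine ⟨N₁ + N₂ + 1, fun N hN g hg hdec P Y hP hY1 hY2 γ hM => ?_⟩
  obtain ⟨hL100, hLT⟩ := h2 N (by omega)
  obtain ⟨z, hz1, hz2, hz3⟩ := exists_z N (by omega)
  obtain ⟨L, hL⟩ : ∃ L, L = Real.log (N : ℝ) := ⟨_, rfl⟩
  have h1' := h1 N (by omega) z
  rw [← hL] at hL100 hLT hP hY1 h1' hg ⊢
  have hL1 : 1 ≤ L := by linarith
  have hL0 : 0 < L := by linarith
  obtain ⟨P', hP'⟩ : ∃ P', P' = ⌈L ^ C₀⌉₊ := ⟨_, rfl⟩
  have hLC1 : 1 ≤ L ^ C₀ := one_le_pow₀ hL1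
  have p1 : L ^ C₀ ≤ P' := by rw [hP']; exact Nat.le_ceil _
  have p2 : (P' : ℝ) ≤ 2 * L ^ C₀ := by
    have := Nat.ceil_lt_add_one (by positivity : (0 : ℝ) ≤ L ^ C₀)
    rw [← hP'] at this
    linarith
  have p3 : 1 ≤ P' := by
    have : (1 : ℝ) ≤ P' := by linarith
    exact_mod_cast this
  have p4 : P' ≤ z := by
    have : (P' : ℝ) ≤ z := by
      refine le_trans (p2.trans ?_) hz3
      refine le_trans ?_ hLT
      rw [pow_succ]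
      nlinarith
    exact_mod_cast this
  have p5 : (P' : ℝ) ≤ P := by
    have k1 : L ^ C₀ ≤ P := (pow_le_pow_right₀ hL1 hC).trans hP
    have k2 : P' ≤ P := by
      rw [hP']
      exact Nat.ceil_le.2 k1
    exact_mod_cast k2
  refine h1' P' Y hz1 hz2 p1 p2 (le_trans ?_ hY1) hY2 g hg (hdec z P' hz1 p3 p4) γ (Mnr_mono p5 hM)
  have : L ^ (2 * C₀) ≤ L ^ (2 * C₁) := pow_le_pow_right₀ hL1 (by omega)
  gcongr

/-- **MWM** -/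
theorem mwm (hsub : S_SUB) (hdec : S_DEC) (hmin : S_MIN) (hwmu : S_WMU) : S_MWM := by
  intro U
  obtain ⟨C₁, h1⟩ := min_use hmin (U + 1)
  obtain ⟨N₁, h1⟩ := h1 C₁ le_rfl
  obtain ⟨C₂, K₂, N₂, h2⟩ := hwmu (C₁ + 1) (U + 2)
  obtain ⟨C, N₃, h3⟩ := asm_all hsub U C₁ C₂ K₂
  obtain ⟨N₄, h4⟩ := Filter.eventually_atTop.1 (ev_log 1 (s := 1) (by norm_num) 100)
  refine ⟨C, N₁ + N₂ + N₃ + N₄ + 2, fun N hN Y hY1 hY2 γ => ?_⟩
  have hL100 := (h4 N (by omega)).1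
  have hmu : ∀ n, ‖mu n‖ ≤ 1 := fun n => by
    unfold mu
    rw [Complex.norm_intCast]
    exact_mod_cast ArithmeticFunction.abs_moebius_le_one
  refine h3 N (by omega) mu (fun l _ => (hmu l).trans ?_) (fun P Y hP _ hY1 hY2 γ hM => ?_)
    (fun q hq1 hq2 a Y hY1 hY2 => ?_) Y hY1 hY2 γ
  · exact one_le_pow₀ (by linarith)
  · refine h1 N (by omega) mu (fun n _ => (hmu n).trans (by linarith)) (fun z P hz hP1 hPz => ?_) P Y hP hY1 hY2 γ hM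
    exact (hdec N z P (by omega) hz hP1 hPz).1
  · exact h2 N (by omega) q hq1 hq2 a Y hY1 hY2

/-- **MWL** -/
theorem mwl (hsub : S_SUB) (hdec : S_DEC) (hmin : S_MIN) (hminz : S_MINZ1) : S_MWL := by
  intro U
  obtain ⟨C₀, h1⟩ := min_use hmin (U + 2)
  obtain ⟨Cz, hz⟩ := hminz (U + 2)
  obtain ⟨C₁, hC₁⟩ : ∃ C₁, C₁ = C₀ + Cz := ⟨_, rfl⟩
  obtain ⟨N₁, h1⟩ := h1 C₁ (by omega)
  obtain ⟨C₂, K₂, h2⟩ := Pool.Agent.V5helper51.CM.win_dz (θ := 1 / 3) (by norm_num) Pool.Agent.V5helper24.CR.sia_all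
    Pool.Agent.V5helper24.CR.lz (C₁ + 1) (U + 2)
  obtain ⟨C, N₃, h3⟩ := asm_all hsub U C₁ C₂ K₂
  refine ⟨C, C₁ + 1, fun E => ?_⟩
  obtain ⟨Nz, hz⟩ := hz E
  obtain ⟨N₂, h2⟩ := h2 E
  obtain ⟨N₄, h4⟩ := Filter.eventually_atTop.1 (ev_log (C₁ + 1) (s := 1 / 20) (by norm_num) 100)
  refine ⟨N₁ + N₂ + N₃ + N₄ + Nz + 2, fun N hN z hz1 hz2 hV Y hY1 hY2 γ => ?_⟩
  obtain ⟨hL100, hLT⟩ := h4 N (by omega)
  have hN1 : (1 : ℝ) ≤ N := by exact_mod_cast (by omega : 1 ≤ N)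
  have hzpos : 1 ≤ z := by
    have : (1 : ℝ) ≤ z := le_trans (one_le_pow₀ (by linarith)) hz1
    exact_mod_cast this
  refine h3 N (by omega) (DZ z) (fun l hl => bd_DZ hV (by linarith) hl) (fun P Y hP hP2 hY1 hY2 γ hM => ?_)
    (fun q hq1 hq2 a Y hY1 hY2 => ?_) Y hY1 hY2 γ
  · -- minor arcs
    have a1 := h1 N (by omega) (fun n => (ArithmeticFunction.vonMangoldt n : ℂ)) (fun n hn => ?_)
      (fun z P hz hP1 hPz => (hdec N z P (by omega) hz hP1 hPz).2) P Y hP hY1 hY2 γ hM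
    · have hPz : Real.log N ^ Cz ≤ P := (pow_le_pow_right₀ (by linarith) (by omega)).trans hP
      have hP20 : (P : ℝ) ≤ (N : ℝ) ^ (1 / 20 : ℝ) := by
        refine hP2.trans (le_trans ?_ hLT)
        rw [pow_succ]
        have : 0 ≤ Real.log N ^ C₁ := by positivity
        nlinarith
      have hY4 : (N : ℝ) ^ (1 / 4 : ℝ) ≤ Y := by
        refine le_trans ?_ hY1
        have k1 : (N : ℝ) ^ (1 / 4 : ℝ) ≤ (N : ℝ) ^ (1 / 3 : ℝ) :=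
          Real.rpow_le_rpow_of_exponent_le hN1 (by norm_num)
        refine k1.trans (le_mul_of_one_le_right (by positivity) (one_le_pow₀ (by linarith)))
      have a2 := hz N (by omega) z P Y hzpos hz2 hV hPz hP20 hY4 hY2 γ hM
      have a3 : Wn (DZ z) N Y γ ≤ 2 * (Wn (fun n => (ArithmeticFunction.vonMangoldt n : ℂ)) N Y γ +
          Wn (fun n => ((lamz z n : ℝ) : ℂ)) N Y γ) := by
        unfold Wn
        rw [← sum_add_distrib, mul_sum]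
        refine sum_le_sum fun m _ => ?_
        have e1 : Bw (DZ z) N Y γ m = Bw (fun n => (ArithmeticFunction.vonMangoldt n : ℂ)) N Y γ m -
            Bw (fun n => ((lamz z n : ℝ) : ℂ)) N Y γ m := by
          unfold Bw
          rw [← sum_sub_distrib]
          refine sum_congr rfl fun l _ => ?_
          unfold DZ
          push_cast
          ring
        rw [e1]
        have k4 := norm_sub_le (Bw (fun n => (ArithmeticFunction.vonMangoldt n : ℂ)) N Y γ m)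
          (Bw (fun n => ((lamz z n : ℝ) : ℂ)) N Y γ m)
        have k5 := pow_le_pow_left₀ (norm_nonneg _) k4 2
        nlinarith [sq_nonneg (‖Bw (fun n => (ArithmeticFunction.vonMangoldt n : ℂ)) N Y γ m‖ -
          ‖Bw (fun n => ((lamz z n : ℝ) : ℂ)) N Y γ m‖)]
      refine a3.trans ?_
      have a4 : N * (Y : ℝ) ^ 2 / Real.log N ^ (U + 2) ≤ N * (Y : ℝ) ^ 2 / Real.log N ^ (U + 1) / 4 := by
        rw [pow_succ _ (U + 1), ← div_div]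
        apply div_le_div_of_nonneg_left (by positivity) (by norm_num)
        linarith
      linarith
    · have := Pool.Agent.R460.GS.vm_le hn
      rw [Complex.norm_real, Real.norm_eq_abs, abs_of_nonneg ArithmeticFunction.vonMangoldt_nonneg]
      exact this
  · -- major arcs
    have hqz : q ≤ z := by exact_mod_cast hq2.trans hz1
    exact h2 N (by omega) z q hq1 hq2 hqz hz2 hV a Y hY1 hY2

end Pool.Agent.V5helper59.MW
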